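import Pool.Agent.P.MP_59bdab_ag.GlueC

/-!
All intersection numbers `M ^ (N - b) * D ^ b` on the perfect cone compactification of the moduli
stack of principally polarised abelian varieties of dimension `g`, `N = g (g + 1) / 2`.

The intersection numbers are the Chern-Weil integrals of smooth hermitian metrics on the Hodge line
bundle `M` and on the boundary divisor `D` (`IsInter`); the values are `inter g b`.
-/

namespace Pool.Agent.Results.MP_59bdab_ag.ChernWeil

open Pool.Agent.P.MP_59bdab_ag

theorem result (g b : ℕ) (hg : 1 ≤ g) (hb : b ≤ tri g) : IsInter g b (inter g b) :=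
  t_FIN g b hg hb

end Pool.Agent.Results.MP_59bdab_ag.ChernWeil
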