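import Pool.Agent.P.MP_59bdab_ag.Glue
import Pool.Agent.P.MP_59bdab_ag.InterEq

/-!
Asymptotic dimension of the spaces of Siegel modular forms of degree `g` and weight `k` that vanish
to order at least `m` along the boundary, for `m / k → σ < 1 / (4 π)`. The limit is written in the
shape `2 (M - σ D) ^ N / N!` of asymptotic Riemann-Roch, with `inter g b` in the place of
`M ^ (N - b) * D ^ b`.
-/

namespace Pool.Agent.Results.MP_59bdab_ag.Intersection

open Filter Topology Pool.Agent.P.MP_59bdab_ag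

theorem result (g : ℕ) (hg : 1 ≤ g) (σ : ℝ) (hσ : 0 < σ) (hσ' : 4 * Real.pi * σ < 1)
    (k m : ℕ → ℕ) (hk : Tendsto k atTop atTop)
    (hm : Tendsto (fun n => (m n : ℝ) / k n) atTop (𝓝 σ)) (hev : ∀ n, Even (g * k n)) :
    (∀ᶠ n in atTop, FiniteDimensional ℂ (SF (Fin g) (k n) (m n))) ∧
    Tendsto (fun n => (Module.finrank ℂ (SF (Fin g) (k n) (m n)) : ℝ) / (k n : ℝ) ^ tri g) atTop
      (𝓝 (2 * (∑ b ∈ Finset.range (tri g + 1), ((tri g).choose b : ℝ) * (-σ) ^ b * inter g b) /
        (tri g).factorial)) := by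
  rw [← vlim_eq]
  exact t_MAIN g hg σ hσ hσ' k m hk hm hev

end Pool.Agent.Results.MP_59bdab_ag.Intersection
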