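import Pool.Agent.P.MP_59bdab_ag.Sys.Glue

/-!
Two-sided bounds, for every `σ > 0`, for the asymptotic dimension of the spaces of Siegel modular
forms of degree `g` and weight `k` that vanish to order at least `m` along the boundary,
`m / k → σ`. The main term is the proportion of principally polarised abelian varieties all of
whose nonzero periods have squared length at least `4 π σ`.
-/

namespace Pool.Agent.Results.MP_59bdab_ag.Systole

open Filter Topology Pool.Agent.P.MP_59bdab_ag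

theorem result (g : ℕ) (hg : 1 ≤ g) (σ : ℝ) (hσ : 0 < σ) (k m : ℕ → ℕ)
    (hk : Tendsto k atTop atTop) (hm : Tendsto (fun n => (m n : ℝ) / k n) atTop (𝓝 σ))
    (hev : ∀ n, Even (g * k n)) :
    (∃ F : Set (Sym2 (Fin g) → ℂ), FD F) ∧ ∀ F : Set (Sym2 (Fin g) → ℂ), FD F →
      (∀ᶠ n in atTop, FiniteDimensional ℂ (SF (Fin g) (k n) (m n))) ∧ ∀ ε > 0, ∀ᶠ n in atTop,
        2 * hh g * (vv F (4 * Real.pi * σ) / vv F 0) - err g (4 * Real.pi * σ) - ε ≤
          (Module.finrank ℂ (SF (Fin g) (k n) (m n)) : ℝ) / (k n : ℝ) ^ tri g ∧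
        (Module.finrank ℂ (SF (Fin g) (k n) (m n)) : ℝ) / (k n : ℝ) ^ tri g ≤
          2 * hh g * (vv F (4 * Real.pi * σ) / vv F 0) + ε :=
  ⟨t_FDex (Fin g), t_MNA g hg σ hσ k m hk hm hev⟩

end Pool.Agent.Results.MP_59bdab_ag.Systole
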