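import Pool.Agent.P.MP_59bdab_ag.Sys.Glue

/-!
Explicit two-sided bounds, for every `σ > 0`, for the asymptotic dimension of the spaces of Siegel
modular forms of degree `g` and weight `k` that vanish to order at least `m` along the boundary,
`m / k → σ`, in terms of `x = (4 π² σ) ^ g / (2 g! ζ(2 g))`.
-/

namespace Pool.Agent.Results.MP_59bdab_ag.Threshold

open Filter Topology Pool.Agent.P.MP_59bdab_ag

theorem result (g : ℕ) (hg : 1 ≤ g) (σ : ℝ) (hσ : 0 < σ) (k m : ℕ → ℕ)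
    (hk : Tendsto k atTop atTop) (hm : Tendsto (fun n => (m n : ℝ) / k n) atTop (𝓝 σ))
    (hev : ∀ n, Even (g * k n)) (j : ℕ) (hj : 1 ≤ j) :
    (∀ᶠ n in atTop, FiniteDimensional ℂ (SF (Fin g) (k n) (m n))) ∧ ∀ ε > 0, ∀ᶠ n in atTop,
      2 * hh g * (1 - xx g σ) - ε ≤
        (Module.finrank ℂ (SF (Fin g) (k n) (m n)) : ℝ) / (k n : ℝ) ^ tri g ∧
      (Module.finrank ℂ (SF (Fin g) (k n) (m n)) : ℝ) / (k n : ℝ) ^ tri g ≤
        2 * hh g * (1 - 2 * xx g σ / (j + 1) + kap g σ * xx g σ ^ 2 / (j * (j + 1))) + ε :=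
  t_MNB g hg σ hσ k m hk hm hev j hj

end Pool.Agent.Results.MP_59bdab_ag.Threshold
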